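import Mathlib

/-!
# Flows with periodic shadowing: definitions
-/

set_option autoImplicit false

universe v

namespace Pool.Agent.N813.FL

/-- `φ` is a continuous flow on `Y`. -/
def IsFlow {Y : Type v} [TopologicalSpace Y] (φ : ℝ → Y → Y) : Prop :=
  Continuous (fun q : ℝ × Y => φ q.1 q.2) ∧ (∀ y, φ 0 y = y) ∧
    ∀ s t y, φ (s + t) y = φ s (φ t y)

/-- `w 0, …, w n` is a `δ`-chain with the times `t i ∈ [1, 2]`. -/
def IsChain {Y : Type v} [MetricSpace Y] (φ : ℝ → Y → Y) (δ : ℝ) (n : ℕ) (t : ℕ → ℝ)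
    (w : ℕ → Y) : Prop :=
  ∀ i < n, 1 ≤ t i ∧ t i ≤ 2 ∧ dist (φ (t i) (w i)) (w (i + 1)) < δ

/-- Periodic shadowing: every periodic `δ`-chain `w` with the times `t` is `η`-shadowed by a periodic
orbit, with the times `s i`, `|s i - t i| < η`. -/
def PerShadowFl {Y : Type v} [MetricSpace Y] (φ : ℝ → Y → Y) : Prop :=
  ∀ η : ℝ, 0 < η → ∃ δ : ℝ, 0 < δ ∧ ∀ (n : ℕ) (t : ℕ → ℝ) (w : ℕ → Y), 1 ≤ n → w n = w 0 →
    IsChain φ δ n t w → ∃ (p : Y) (s : ℕ → ℝ), (∀ i < n, |s i - t i| < η) ∧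
      φ (∑ i ∈ Finset.range n, s i) p = p ∧
      ∀ i < n, dist (φ (∑ j ∈ Finset.range i, s j) p) (w i) < η

/-- Chain transitivity: any two points are joined by a `δ`-chain. -/
def ChainTransFl {Y : Type v} [MetricSpace Y] (φ : ℝ → Y → Y) : Prop :=
  ∀ δ : ℝ, 0 < δ → ∀ p q : Y, ∃ (n : ℕ) (t : ℕ → ℝ) (w : ℕ → Y), 1 ≤ n ∧ w 0 = p ∧ w n = q ∧
    IsChain φ δ n t w

/-- A continuous flow which is chain transitive, has the periodic shadowing property and consists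
of more than one orbit. -/
def HypFlow {Y : Type v} [MetricSpace Y] (φ : ℝ → Y → Y) : Prop :=
  IsFlow φ ∧ PerShadowFl φ ∧ ChainTransFl φ ∧ ∀ p, ∃ y, ∀ t, φ t p ≠ y

end Pool.Agent.N813.FL
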