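import Pool.Agent.N813.CL.DefsF
import Pool.Agent.N813.FL.Defs
import Pool.Agent.W564.SC.Defs

/-!
# Skew products with hyperbolic flows in the fibres: definitions

`V d = ℝ^d`, `DiffM n N r = Diff^r(N)` and `strongTop n N r` is its strong (Whitney) `C^r` topology
(`Pool/Agent/H718R2/G0.lean`), `NonWand f x`: `x` is a nonwandering point of `f`
(`Pool/Agent/W564/SC/Defs.lean`), `ExpAct`, `Inv`, `Quot`, `Approx`: `Pool/Agent/N813/CL/DefsF.lean`,
`HypFlow`: `Pool/Agent/N813/FL/Defs.lean`.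
-/

set_option autoImplicit false

open scoped Manifold ContDiff Topology
open Filter Set Metric

universe u v

namespace Pool.Agent.N813.FL.F

open Pool.Agent.H718R2.G Pool.Agent.W564.SC Pool.Agent.N813.CL.F

/-- `Φ` is a smooth flow on `N`. -/
def SmoothFlow (n : ℕ) (N : Type u) [TopologicalSpace N] [ChartedSpace (V n) N]
    (Φ : ℝ → N → N) : Prop :=
  ContMDiff (𝓘(ℝ, ℝ).prod (𝓡 n)) (𝓡 n) ∞ (fun q : ℝ × N => Φ q.1 q.2) ∧ (∀ y, Φ 0 y = y) ∧
    ∀ s t y, Φ (s + t) y = Φ s (Φ t y)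

/-- The flow `Φ` preserves `K`, it commutes on `K` with `F` and with the `R_a`, and it covers the flow
`(x, y) ↦ (x, φ_t y)` of `X × Y`. -/
def Covers {k : ℕ} {N : Type u} {X Y : Type v} (F : N → N) (R : V k → N → N) (K : Set N)
    (π : N → X × Y) (φ : ℝ → Y → Y) (Φ : ℝ → N → N) : Prop :=
  ∀ t, ∀ y ∈ K, Φ t y ∈ K ∧ F (Φ t y) = Φ t (F y) ∧ (∀ a, R a (Φ t y) = Φ t (R a y)) ∧
    π (Φ t y) = ((π y).1, φ t (π y).2)

/-- On `K` the map `F` covers the skew product `(x, y) ↦ (f x, φ_{τ(x)} y)`, `τ ≥ 0` continuous. -/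
def Skew {N : Type u} {X Y : Type v} [TopologicalSpace X] (F : N → N) (K : Set N)
    (π : N → X × Y) (f : X → X) (τ : X → ℝ) (φ : ℝ → Y → Y) : Prop :=
  Continuous τ ∧ (∀ x, 0 ≤ τ x) ∧ ∀ y ∈ K, π (F y) = (f (π y).1, φ (τ (π y).1) (π y).2)

/-- `z` lies in a closed invariant set `K` of `F` on which `F` is a compact connected group extension
of a skew product `(x, y) ↦ (f x, φ_{τ(x)} y)`, where `φ` is a flow with `HypFlow φ` and `f` is an
ARBITRARY homeomorphism. The flow is covered by a smooth flow `Φ` of `N` which commutes on `K` with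
`F` and with the group. The point of `X` below `z` is nonwandering for `f`. -/
def FlowHyp (k n : ℕ) (N : Type u) [TopologicalSpace N] [ChartedSpace (V n) N] (F : N → N)
    (z : N) : Prop :=
  ∃ (R : V k → N → N) (Φ : ℝ → N → N) (K : Set N) (X Y : Type v) (_ : MetricSpace X)
    (_ : CompactSpace X) (_ : MetricSpace Y) (_ : CompactSpace Y) (f : X ≃ₜ X) (τ : X → ℝ)
    (φ : ℝ → Y → Y) (π : N → X × Y), ExpAct k n N R ∧ SmoothFlow n N Φ ∧ Inv F R K ∧
      Quot R K π ∧ Skew F K π f τ φ ∧ Covers F R K π φ Φ ∧ HypFlow φ ∧ z ∈ K ∧ NonWand f (π z).1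

/-- On `K` the map `F` covers the skew product `(x, y) ↦ (f x, h^{τ(x)} y)`, `τ ≥ 1`. -/
def SkewMap {N : Type u} {X Y : Type v} (F : N → N) (K : Set N) (π : N → X × Y) (f : X → X)
    (τ : X → ℕ) (h : Y → Y) : Prop :=
  (∀ x, 1 ≤ τ x) ∧ ∀ y ∈ K, π (F y) = (f (π y).1, h^[τ (π y).1] (π y).2)

/-- `h` is chain mixing, has the periodic shadowing property, and `Y` is not a point. -/
def HypMap {Y : Type v} [MetricSpace Y] (h : Y → Y) : Prop :=
  PerShadow h ∧ ChainMix h ∧ Nontrivial Y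

/-- The same as `FlowHyp` for skew products `(x, y) ↦ (f x, h^{τ(x)} y)`, where `h` is a map with
`HypMap h`. -/
def MapHyp (k n : ℕ) (N : Type u) [TopologicalSpace N] [ChartedSpace (V n) N] (F : N → N)
    (z : N) : Prop :=
  ∃ (R : V k → N → N) (K : Set N) (X Y : Type v) (_ : MetricSpace X)
    (_ : CompactSpace X) (_ : MetricSpace Y) (_ : CompactSpace Y) (f : X ≃ₜ X) (τ : X → ℕ)
    (h : Y ≃ₜ Y) (π : N → X × Y), ExpAct k n N R ∧ Inv F R K ∧ Quot R K π ∧
      SkewMap F K π f τ h ∧ HypMap h ∧ z ∈ K ∧ NonWand f (π z).1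

/-- `FlowHyp` or `MapHyp`, for some `k`. -/
def HypFib (n : ℕ) (N : Type u) [TopologicalSpace N] [ChartedSpace (V n) N] (F : N → N)
    (z : N) : Prop :=
  ∃ k, FlowHyp.{u, v} k n N F z ∨ MapHyp.{u, v} k n N F z

end Pool.Agent.N813.FL.F
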