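import Pool.Agent.N813.FL.Lift
import Pool.Agent.W816.SC.Flex

/-!
# Compact group extensions of skew products with a mixing map in the fibres
-/

set_option autoImplicit false

open scoped Manifold ContDiff Topology
open Filter Set Metric

universe u v w

namespace Pool.Agent.N813.FL

open Pool.Agent.H718R2.G Pool.Agent.W564.SC Pool.Agent.N813.CL

section
variable {X Y : Type v} [MetricSpace X] [MetricSpace Y]

/-- The sums `τ(x) + τ(f x) + ⋯ + τ(f^(m-1) x)`. -/
def bsn (f : X → X) (τ : X → ℕ) (m : ℕ) (x : X) : ℕ := ∑ j ∈ Finset.range m, τ (f^[j] x)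

theorem bsn_succ (f : X → X) (τ : X → ℕ) (m : ℕ) (x : X) :
    bsn f τ (m + 1) x = bsn f τ m x + τ (f^[m] x) := Finset.sum_range_succ _ _

theorem iter_skewn (f : X → X) (h : Y → Y) (τ : X → ℕ) {g : X × Y → X × Y}
    (hg : ∀ x y, g (x, y) = (f x, h^[τ x] y)) (m : ℕ) (x : X) (y : Y) :
    g^[m] (x, y) = (f^[m] x, h^[bsn f τ m x] y) := by
  induction m with
  | zero => simp [bsn]
  | succ m ih =>
    rw [Function.iterate_succ_apply', ih, hg, Function.iterate_succ_apply', bsn_succ,
      ← Function.iterate_add_apply, add_comm (τ _)]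

theorem bsn_gap {f : X → X} {τ : X → ℕ} (h0 : ∀ x, 1 ≤ τ x) (i j : ℕ) (x : X) :
    bsn f τ i x + j ≤ bsn f τ (i + j) x := by
  induction j with
  | zero => simp
  | succ j ih =>
    rw [← add_assoc, ← add_assoc, bsn_succ]
    have := h0 (f^[i + j] x)
    omega

theorem bsn_ge {f : X → X} {τ : X → ℕ} (h0 : ∀ x, 1 ≤ τ x) (i : ℕ) (x : X) :
    i ≤ bsn f τ i x := by
  have := bsn_gap (f := f) h0 0 i x
  simpa [bsn] using this

variable [CompactSpace X] [CompactSpace Y] [Nontrivial Y]

theorem dichotomyn (h : Y ≃ₜ Y) (hs : PerShadow h) (hm : ChainMix h) (f : X ≃ₜ X) {τ : X → ℕ}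
    (h0 : ∀ x, 1 ≤ τ x) {g : X × Y → X × Y} (hg : ∀ x y, g (x, y) = (f x, h^[τ x] y))
    {x : X} (y : Y) (hx : NonWand f x) : AlmostClose g (x, y) ∨ NearPer g (x, y) := by
  by_cases hper : ∃ b : ℕ, 1 ≤ b ∧ f^[b] x = x
  · right
    obtain ⟨b, hb, hbx⟩ := hper
    intro η hη
    obtain ⟨ρ, L, hρ, H⟩ := Pool.Agent.W816.SC.flex Y h hs hm y η hη
    set m : ℕ := b * (2 * L + 1) with hmdef
    have hm1 : 2 * L ≤ m := by nlinarith
    obtain ⟨y', hy', hp, -⟩ := H (bsn f τ m x) (hm1.trans (bsn_ge h0 m x))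
    refine ⟨(x, y'), m, Nat.mul_pos hb (by omega), ?_, ?_⟩
    · rw [Prod.dist_eq]
      simp only [dist_self]
      exact max_lt hη hy'
    · have h2 : f^[m] x = x := by
        have h4 : Function.IsPeriodicPt f b x := hbx
        exact h4.mul_const (2 * L + 1)
      rw [iter_skewn f h τ hg, h2, hp]
  · left
    push Not at hper
    intro η hη
    obtain ⟨ρ, L, hρ, H⟩ := Pool.Agent.W816.SC.flex Y h hs hm y η hη
    obtain ⟨c₀, hc₀, hcm⟩ := Pool.Agent.W216.SC.exists_pos_le (Finset.Ico 1 L)
      (fun i => dist (f^[i] x) x) (by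
        intro i hi
        rw [Finset.mem_Ico] at hi
        exact dist_pos.2 (hper i hi.1))
    obtain ⟨c₁, hc₁, huc⟩ : ∃ c₁ : ℝ, 0 < c₁ ∧ ∀ i < L, ∀ p q : X, dist p q < c₁ →
        dist (f^[i] p) (f^[i] q) < c₀ / 4 := by
      have h1 : ∀ i : ℕ, ∃ c₁ : ℝ, 0 < c₁ ∧ ∀ p q : X, dist p q < c₁ →
          dist (f^[i] p) (f^[i] q) < c₀ / 4 := by
        intro i
        have h2 := CompactSpace.uniformContinuous_of_continuous (f.continuous.iterate i)
        rw [Metric.uniformContinuous_iff] at h2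
        obtain ⟨c, hc, h3⟩ := h2 (c₀ / 4) (by positivity)
        exact ⟨c, hc, fun p q hpq => h3 hpq⟩
      choose c hc h3 using h1
      obtain ⟨c₁, hc₁, h4⟩ := Pool.Agent.W216.SC.exists_pos_le (Finset.range L) c
        (fun i _ => hc i)
      exact ⟨c₁, hc₁, fun i hi p q hpq => h3 i p q (hpq.trans_le (h4 i (Finset.mem_range.2 hi)))⟩
    refine ⟨min ρ (min c₁ (c₀ / 4)), lt_min hρ (lt_min hc₁ (by positivity)), fun δ hδ M => ?_⟩
    set ε : ℝ := min (min η (δ / 2)) (min c₁ (c₀ / 4)) with hε
    have hε0 : 0 < ε := lt_min (lt_min hη (by positivity)) (lt_min hc₁ (by positivity))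
    have e1 : ε ≤ η := (min_le_left _ _).trans (min_le_left _ _)
    have e2 : ε ≤ δ / 2 := (min_le_left _ _).trans (min_le_right _ _)
    have e3 : ε ≤ c₁ := (min_le_right _ _).trans (min_le_left _ _)
    have e4 : ε ≤ c₀ / 4 := (min_le_right _ _).trans (min_le_right _ _)
    obtain ⟨x1, m, hMm, hm1, hx1, hx1'⟩ := Pool.Agent.W216.SC.nonwand_long f hx hper ε hε0
      (max M (2 * L))
    obtain ⟨y', hy', hp, hiso⟩ := H (bsn f τ m x1)
      (((le_max_right _ _).trans hMm).trans (bsn_ge h0 m x1))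
    refine ⟨m, (x1, y'), (le_max_left _ _).trans hMm, ?_, ?_, ?_⟩
    · rw [Prod.dist_eq]
      exact max_lt (hx1.trans_le e1) hy'
    · rw [iter_skewn f h τ hg, hp, Prod.dist_eq]
      simp only [dist_self]
      refine max_lt ?_ hδ
      have h5 := dist_triangle_right (f^[m] x1) x1 x
      linarith
    · intro i hi0 him
      rw [iter_skewn f h τ hg, Prod.dist_eq]
      by_cases hiL : i < L
      · refine le_max_of_le_left ?_
        have h5 := hcm i (by rw [Finset.mem_Ico]; omega)
        have h6 := huc i hiL x1 x (hx1.trans_le e3)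
        have h7 : dist (f^[i] x) x ≤ dist (f^[i] x1) (f^[i] x) + dist (f^[i] x1) x1 +
            dist x1 x := by
          have := dist_triangle4 (f^[i] x) (f^[i] x1) x1 x
          rwa [dist_comm (f^[i] x) (f^[i] x1)] at this
        have h8 : min ρ (min c₁ (c₀ / 4)) ≤ c₀ / 4 := (min_le_right _ _).trans (min_le_right _ _)
        show min ρ (min c₁ (c₀ / 4)) ≤ dist (f^[i] x1) x1
        linarith
      · by_cases hiL' : m < i + L
        · refine le_max_of_le_left ?_
          by_contra hcon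
          push Not at hcon
          have hcon' : dist (f^[i] x1) x1 < c₁ :=
            hcon.trans_le ((min_le_right _ _).trans (min_le_left _ _))
          have h5 := huc (m - i) (by omega) _ _ hcon'
          rw [← Function.iterate_add_apply, (by omega : m - i + i = m)] at h5
          have h6 := huc (m - i) (by omega) x1 x (hx1.trans_le e3)
          have h7 := hcm (m - i) (by rw [Finset.mem_Ico]; omega)
          have h8 := dist_triangle4 (f^[m - i] x) (f^[m - i] x1) (f^[m] x1) x
          rw [dist_comm (f^[m - i] x) (f^[m - i] x1), dist_comm (f^[m - i] x1) (f^[m] x1)] at h8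
          linarith
        · refine le_max_of_le_right ((min_le_left _ _).trans (hiso _ ?_ ?_))
          · have := bsn_ge (f := f) h0 i x1
            omega
          · have h9 := bsn_gap (f := f) h0 i (m - i) x1
            rw [(by omega : i + (m - i) = m)] at h9
            omega

end

/-- The closing lemma for compact connected group extensions of skew products with a mixing map with
periodic shadowing in the fibres over arbitrary homeomorphisms. -/
theorem closablen {k n : ℕ} {N : Type u} [TopologicalSpace N] [T2Space N] [CompactSpace N]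
    [ChartedSpace (V n) N] [IsManifold (𝓡 n) ∞ N] {r : ℕ∞} (hr : 1 ≤ r)
    {R : V k → N → N} (hR : ExpAction k n N R)
    {F : DiffM n N r} {K : Set N} {X Y : Type v} [MetricSpace X] [CompactSpace X]
    [MetricSpace Y] [CompactSpace Y] [Nontrivial Y] (h : Y ≃ₜ Y) (hs : PerShadow h)
    (hm : ChainMix h) (f : X ≃ₜ X) {τ : X → ℕ} (h0 : ∀ x, 1 ≤ τ x) {g : X × Y → X × Y}
    (hg : ∀ x y, g (x, y) = (f x, h^[τ x] y)) {π : N → X × Y} (hq : IsQuot F R K g π)
    {z : N} (hz : z ∈ K) (hx : NonWand f (π z).1) : Closable n N r F z :=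
  Pool.Agent.N813.CL.lift t_CL Pool.Agent.W699.SC.gc hr hR hq hz
    (dichotomyn h hs hm f h0 hg (π z).2 hx)

end Pool.Agent.N813.FL
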