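import Pool.Agent.N813.FL.Flex
import Pool.Agent.W216.SC.A

/-!
# Skew products over arbitrary homeomorphisms with flows in the fibres: almost closed orbits
-/

set_option autoImplicit false

open scoped Topology
open Filter Set Metric

universe u v w

namespace Pool.Agent.N813.FL

open Pool.Agent.W564.SC

/-- Up to a small constant speed change along the flow `ψ` there are points near `b` whose orbits
first return near them at a late time, and then very precisely. -/
def AlmostCloseFl {B : Type*} [MetricSpace B] (g : B → B) (ψ : ℝ → B → B) (b : B) : Prop :=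
  ∀ κ : ℝ, 0 < κ → ∀ η : ℝ, 0 < η → ∃ c : ℝ, 0 < c ∧ ∀ δ : ℝ, 0 < δ → ∀ M : ℕ,
    ∃ (m : ℕ) (b' : B) (s : ℝ), M ≤ m ∧ |s| < κ ∧ dist b' b < η ∧
      dist (ψ (m * s) (g^[m] b')) b' < δ ∧
      ∀ i, 0 < i → i < m → c ≤ dist (ψ (i * s) (g^[i] b')) b'

/-- Up to a small constant speed change along the flow `ψ`, `b` is a limit of periodic points. -/
def NearPerFl {B : Type*} [MetricSpace B] (g : B → B) (ψ : ℝ → B → B) (b : B) : Prop :=
  ∀ κ : ℝ, 0 < κ → ∀ η : ℝ, 0 < η → ∃ (b' : B) (m : ℕ) (s : ℝ), 1 ≤ m ∧ |s| < κ ∧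
    dist b' b < η ∧ ψ (m * s) (g^[m] b') = b'

section
variable {X : Type u} {Y : Type v} [MetricSpace X] [MetricSpace Y] {φ : ℝ → Y → Y}

/-- The sums `τ(x) + τ(f x) + ⋯ + τ(f^(m-1) x)`. -/
def bs (f : X → X) (τ : X → ℝ) (m : ℕ) (x : X) : ℝ := ∑ j ∈ Finset.range m, τ (f^[j] x)

theorem bs_succ (f : X → X) (τ : X → ℝ) (m : ℕ) (x : X) :
    bs f τ (m + 1) x = bs f τ m x + τ (f^[m] x) := Finset.sum_range_succ _ _

theorem iter_skew (hφ : IsFlow φ) (f : X → X) (τ : X → ℝ) {g : X × Y → X × Y}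
    (hg : ∀ x y, g (x, y) = (f x, φ (τ x) y)) (m : ℕ) (x : X) (y : Y) :
    g^[m] (x, y) = (f^[m] x, φ (bs f τ m x) y) := by
  induction m with
  | zero => simp [bs, hφ.2.1]
  | succ m ih =>
    rw [Function.iterate_succ_apply', ih, hg, Function.iterate_succ_apply', bs_succ, ← hφ.2.2,
      add_comm (τ _)]

theorem bs_mono {f : X → X} {τ : X → ℝ} (h0 : ∀ x, 0 ≤ τ x) {i m : ℕ} (h : i ≤ m) (x : X) :
    bs f τ i x ≤ bs f τ m x := by
  unfold bs
  exact Finset.sum_le_sum_of_subset_of_nonneg (Finset.range_mono h) fun j _ _ => h0 _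

theorem bs_le {f : X → X} {τ : X → ℝ} {C : ℝ} (hC : ∀ x, τ x ≤ C) (m : ℕ) (x : X) :
    bs f τ m x ≤ m * C := by
  unfold bs
  have := Finset.sum_le_card_nsmul (Finset.range m) (fun j => τ (f^[j] x)) C fun j _ => hC _
  simpa using this

/-- the choice of the speed -/
theorem speed [CompactSpace Y] (h : HypFlow φ) (y : Y) {κ η C : ℝ} (hκ : 0 < κ) (hη : 0 < η)
    (hC : 0 ≤ C) : ∃ (ρ : ℝ) (L M₀ : ℕ), 0 < ρ ∧ ∀ (S : ℕ → ℝ) (m : ℕ), M₀ ≤ m → 1 ≤ m →
      (∀ i, 0 ≤ S i) → (∀ i ≤ m, S i ≤ S m) → S m ≤ m * C →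
      ∃ (y' : Y) (s : ℝ), dist y' y < η ∧ |s| < κ ∧ φ (S m + m * s) y' = y' ∧
        ∀ i, L ≤ i → i + L ≤ m → ρ ≤ dist (φ (S i + i * s) y') y' := by
  set ζ : ℝ := κ / (8 * (C + κ)) with hζ
  have hζ0 : 0 < ζ := by positivity
  have hζ' : ζ * (C + κ) = κ / 8 := by
    rw [hζ]
    field_simp
  obtain ⟨ρ, R, T₀, hρ, hR, H⟩ := flex h y η ζ hη hζ0
  obtain ⟨L, hL⟩ := exists_nat_gt (8 * R / (3 * κ))
  obtain ⟨M₀, hM₀⟩ := exists_nat_gt (2 * T₀ / κ)
  refine ⟨ρ, L, M₀, hρ, fun S m hm hm1 hS0 hSm hSC => ?_⟩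
  have hm0 : (0 : ℝ) < m := by exact_mod_cast (by omega : 0 < m)
  have hm' : (M₀ : ℝ) ≤ m := by exact_mod_cast hm
  have h1 : T₀ ≤ S m + κ / 2 * m := by
    rw [div_lt_iff₀ hκ] at hM₀
    have h2 : (M₀ : ℝ) * κ ≤ m * κ := mul_le_mul_of_nonneg_right hm' hκ.le
    linarith [hS0 m]
  obtain ⟨y', T', hy', hT', hper, hiso⟩ := H _ h1
  have h2 : ζ * (S m + κ / 2 * m) ≤ κ / 8 * m := by
    have h3 : S m + κ / 2 * m ≤ (C + κ) * m := by nlinarith
    calc ζ * (S m + κ / 2 * m) ≤ ζ * ((C + κ) * m) := mul_le_mul_of_nonneg_left h3 hζ0.le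
      _ = κ / 8 * m := by rw [← mul_assoc, hζ']
  set s : ℝ := (T' - S m) / m with hs
  have hms : m * s = T' - S m := by
    rw [hs]
    field_simp
  have h3 := abs_le.1 (hT'.trans h2)
  have hs1 : 3 * κ / 8 ≤ s := by
    rw [hs, le_div_iff₀ hm0]
    linarith [h3.1]
  have hs2 : s ≤ 5 * κ / 8 := by
    rw [hs, div_le_iff₀ hm0]
    linarith [h3.2]
  have hL' : R ≤ L * (3 * κ / 8) := by
    rw [div_lt_iff₀ (by positivity)] at hL
    linarith
  refine ⟨y', s, hy', ?_, ?_, fun i hi him => ?_⟩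
  · rw [abs_lt]
    constructor <;> linarith
  · rw [hms]
    have h4 : S m + (T' - S m) = T' := by ring
    rw [h4]
    exact hper
  · have hi' : (L : ℝ) ≤ i := by exact_mod_cast hi
    have him' : (i : ℝ) + L ≤ m := by exact_mod_cast him
    have h5 : (L : ℝ) * (3 * κ / 8) ≤ i * s :=
      mul_le_mul hi' hs1 (by positivity) (Nat.cast_nonneg _)
    have h6 : (L : ℝ) * (3 * κ / 8) ≤ (m - i) * s :=
      mul_le_mul (by linarith) hs1 (by positivity) (by linarith [(Nat.cast_nonneg L : (0:ℝ) ≤ L)])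
    have h7 := hSm i (by omega)
    apply hiso
    · linarith [hS0 i]
    · linarith

variable [CompactSpace X] [CompactSpace Y]

theorem dichotomy (h : HypFlow φ) (f : X ≃ₜ X) {τ : X → ℝ} (hτ : Continuous τ)
    (h0 : ∀ x, 0 ≤ τ x) {g : X × Y → X × Y} (hg : ∀ x y, g (x, y) = (f x, φ (τ x) y))
    {ψ : ℝ → X × Y → X × Y} (hψ : ∀ t x y, ψ t (x, y) = (x, φ t y)) {x : X} (y : Y)
    (hx : NonWand f x) : AlmostCloseFl g ψ (x, y) ∨ NearPerFl g ψ (x, y) := by
  obtain ⟨C, hC0, hC⟩ : ∃ C : ℝ, 0 ≤ C ∧ ∀ x, τ x ≤ C := by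
    haveI : Nonempty X := ⟨x⟩
    obtain ⟨x0, hx0⟩ := isCompact_univ.exists_isMaxOn (univ_nonempty) hτ.continuousOn
    exact ⟨τ x0, h0 _, fun x => hx0.2 (mem_univ x)⟩
  have hφ := h.1
  by_cases hper : ∃ b : ℕ, 1 ≤ b ∧ f^[b] x = x
  · right
    obtain ⟨b, hb, hbx⟩ := hper
    intro κ hκ η hη
    obtain ⟨ρ, L, M₀, hρ, H⟩ := speed h y hκ hη hC0
    have h1 : M₀ ≤ b * (M₀ + 1) := by nlinarith
    obtain ⟨y', s, hy', hs, hp, -⟩ := H (fun i => bs f τ i x) (b * (M₀ + 1)) h1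
      (Nat.mul_pos hb (by omega)) (fun i => by
        have := bs_mono (f := f) h0 (Nat.zero_le i) x
        simpa [bs] using this) (fun i hi => bs_mono h0 hi x) (bs_le hC _ x)
    refine ⟨(x, y'), b * (M₀ + 1), s, Nat.mul_pos hb (by omega), hs, ?_, ?_⟩
    · rw [Prod.dist_eq]
      simp only [dist_self]
      exact max_lt hη hy'
    · have h2 : f^[b * (M₀ + 1)] x = x := by
        have h4 : Function.IsPeriodicPt f b x := hbx
        exact h4.mul_const (M₀ + 1)
      rw [iter_skew hφ f τ hg, hψ, h2, ← hφ.2.2, add_comm]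
      rw [hp]
  · left
    push Not at hper
    intro κ hκ η hη
    obtain ⟨ρ, L, M₀, hρ, H⟩ := speed h y hκ hη hC0
    obtain ⟨c₀, hc₀, hcm⟩ := Pool.Agent.W216.SC.exists_pos_le (Finset.Ico 1 L)
      (fun i => dist (f^[i] x) x) (by
        intro i hi
        rw [Finset.mem_Ico] at hi
        exact dist_pos.2 (hper i hi.1))
    -- uniform continuity of the iterates
    obtain ⟨c₁, hc₁, huc⟩ : ∃ c₁ : ℝ, 0 < c₁ ∧ ∀ i < L, ∀ p q : X, dist p q < c₁ →
        dist (f^[i] p) (f^[i] q) < c₀ / 4 := by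
      have h1 : ∀ i : ℕ, ∃ c₁ : ℝ, 0 < c₁ ∧ ∀ p q : X, dist p q < c₁ →
          dist (f^[i] p) (f^[i] q) < c₀ / 4 := by
        intro i
        have h2 := CompactSpace.uniformContinuous_of_continuous (f.continuous.iterate i)
        rw [Metric.uniformContinuous_iff] at h2
        obtain ⟨c, hc, h3⟩ := h2 (c₀ / 4) (by positivity)
        exact ⟨c, hc, fun p q hpq => h3 hpq⟩
      choose c hc h3 using h1
      obtain ⟨c₁, hc₁, h4⟩ := Pool.Agent.W216.SC.exists_pos_le (Finset.range L) c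
        (fun i _ => hc i)
      exact ⟨c₁, hc₁, fun i hi p q hpq => h3 i p q (hpq.trans_le (h4 i (Finset.mem_range.2 hi)))⟩
    refine ⟨min ρ (min c₁ (c₀ / 4)), lt_min hρ (lt_min hc₁ (by positivity)), fun δ hδ M => ?_⟩
    set ε : ℝ := min (min η (δ / 2)) (min c₁ (c₀ / 4)) with hε
    have hε0 : 0 < ε := lt_min (lt_min hη (by positivity)) (lt_min hc₁ (by positivity))
    have e1 : ε ≤ η := (min_le_left _ _).trans (min_le_left _ _)
    have e2 : ε ≤ δ / 2 := (min_le_left _ _).trans (min_le_right _ _)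
    have e3 : ε ≤ c₁ := (min_le_right _ _).trans (min_le_left _ _)
    have e4 : ε ≤ c₀ / 4 := (min_le_right _ _).trans (min_le_right _ _)
    obtain ⟨x1, m, hMm, hm1, hx1, hx1'⟩ := Pool.Agent.W216.SC.nonwand_long f hx hper ε hε0
      (max M M₀)
    obtain ⟨y', s, hy', hs, hp, hiso⟩ := H (fun i => bs f τ i x1) m
      ((le_max_right _ _).trans hMm) hm1 (fun i => by
        have := bs_mono (f := f) h0 (Nat.zero_le i) x1
        simpa [bs] using this) (fun i hi => bs_mono h0 hi x1) (bs_le hC _ x1)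
    have hit : ∀ i : ℕ, ψ (i * s) (g^[i] (x1, y')) = (f^[i] x1, φ (bs f τ i x1 + i * s) y') := by
      intro i
      rw [iter_skew hφ f τ hg, hψ, ← hφ.2.2, add_comm]
    refine ⟨m, (x1, y'), s, (le_max_left _ _).trans hMm, hs, ?_, ?_, ?_⟩
    · rw [Prod.dist_eq]
      exact max_lt (hx1.trans_le e1) hy'
    · rw [hit, hp, Prod.dist_eq]
      simp only [dist_self]
      refine max_lt ?_ hδ
      have h5 := dist_triangle_right (f^[m] x1) x1 x
      linarith
    · intro i hi0 him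
      rw [hit, Prod.dist_eq]
      by_cases hiL : i < L
      · refine le_max_of_le_left ?_
        have h5 := hcm i (by rw [Finset.mem_Ico]; omega)
        have h6 := huc i hiL x1 x (hx1.trans_le e3)
        have h7 : dist (f^[i] x) x ≤ dist (f^[i] x1) (f^[i] x) + dist (f^[i] x1) x1 +
            dist x1 x := by
          have := dist_triangle4 (f^[i] x) (f^[i] x1) x1 x
          rwa [dist_comm (f^[i] x) (f^[i] x1)] at this
        have h8 : min ρ (min c₁ (c₀ / 4)) ≤ c₀ / 4 := (min_le_right _ _).trans (min_le_right _ _)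
        show min ρ (min c₁ (c₀ / 4)) ≤ dist (f^[i] x1) x1
        linarith
      · by_cases hiL' : m < i + L
        · refine le_max_of_le_left ?_
          by_contra hcon
          push Not at hcon
          have hcon' : dist (f^[i] x1) x1 < c₁ :=
            hcon.trans_le ((min_le_right _ _).trans (min_le_left _ _))
          have h5 := huc (m - i) (by omega) _ _ hcon'
          rw [← Function.iterate_add_apply, (by omega : m - i + i = m)] at h5
          have h6 := huc (m - i) (by omega) x1 x (hx1.trans_le e3)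
          have h7 := hcm (m - i) (by rw [Finset.mem_Ico]; omega)
          have h8 := dist_triangle4 (f^[m - i] x) (f^[m - i] x1) (f^[m] x1) x
          rw [dist_comm (f^[m - i] x) (f^[m - i] x1), dist_comm (f^[m - i] x1) (f^[m] x1)] at h8
          linarith
        · refine le_max_of_le_right ?_
          exact (min_le_left _ _).trans (hiso i (by omega) (by omega))

end

end Pool.Agent.N813.FL
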