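import Pool.Agent.N813.CL.Lift
import Pool.Agent.N813.FL.Skew
import Pool.Agent.W564.SC.Lib

/-!
# Closing in compact group extensions, with the help of a commuting flow
-/

set_option autoImplicit false

open scoped Manifold ContDiff Topology
open Filter Set Metric

universe u v

namespace Pool.Agent.N813.FL

open Pool.Agent.H718R2.G Pool.Agent.W564.SC Pool.Agent.N813.CL

/-- A smooth flow on `N`. -/
structure SmFlow (n : ℕ) (N : Type*) [TopologicalSpace N] [ChartedSpace (V n) N]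
    (Φ : ℝ → N → N) : Prop where
  smooth : ContMDiff (𝓘(ℝ, ℝ).prod (𝓡 n)) (𝓡 n) ∞ (fun q : ℝ × N => Φ q.1 q.2)
  zero : ∀ y, Φ 0 y = y
  add : ∀ s t y, Φ (s + t) y = Φ s (Φ t y)

/-- The flow `Φ` preserves `K`, commutes on `K` with `F` and the `R_X`, and covers the flow `ψ`. -/
structure FlowOn {k : ℕ} {N : Type*} (F : N → N) (R : V k → N → N) (K : Set N) {B : Type*}
    (π : N → B) (Φ : ℝ → N → N) (ψ : ℝ → B → B) : Prop where
  map : ∀ s, ∀ y ∈ K, Φ s y ∈ K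
  commF : ∀ s, ∀ y ∈ K, F (Φ s y) = Φ s (F y)
  commR : ∀ s X, ∀ y ∈ K, R X (Φ s y) = Φ s (R X y)
  equi : ∀ s, ∀ y ∈ K, π (Φ s y) = ψ s (π y)

section act
variable {k n : ℕ} {N : Type u} [TopologicalSpace N] [ChartedSpace (V n) N] {R : V k → N → N}
  {Φ : ℝ → N → N}

/-- the family `F ∘ R_X ∘ Φ_s` -/
theorem fl_fam (hR : ExpAction k n N R) (hΦ : SmFlow n N Φ) (r : ℕ∞) (F : DiffM n N r) :
    ∃ H : V k × ℝ → DiffM n N r, (∀ q y, H q y = F (R q.1 (Φ q.2 y))) ∧ H 0 = F ∧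
      IsFam n N r H := by
  have hr' : (r : WithTop ℕ∞) ≤ ∞ := by exact_mod_cast le_top
  have hRs : ∀ s : V k, ContMDiff (𝓡 n) (𝓡 n) r (R s) := by
    intro s
    have h1 : ContMDiff (𝓡 n) ((𝓡 k).prod (𝓡 n)) ∞ (fun y : N => ((s, y) : V k × N)) :=
      contMDiff_const.prodMk contMDiff_id
    exact (hR.smooth.comp h1).of_le hr'
  have hΦs : ∀ s : ℝ, ContMDiff (𝓡 n) (𝓡 n) r (Φ s) := by
    intro s
    have h1 : ContMDiff (𝓡 n) (𝓘(ℝ, ℝ).prod (𝓡 n)) ∞ (fun y : N => ((s, y) : ℝ × N)) :=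
      contMDiff_const.prodMk contMDiff_id
    exact (hΦ.smooth.comp h1).of_le hr'
  have hinv : ∀ (X : V k) (y : N), R (-X) (R X y) = y := by
    intro X y
    have h1 := hR.line (-1) 1 X y
    rw [neg_add_cancel, zero_smul, hR.zero, one_smul, neg_one_smul] at h1
    exact h1.symm
  have hinvΦ : ∀ (s : ℝ) (y : N), Φ (-s) (Φ s y) = y := by
    intro s y
    rw [← hΦ.add, neg_add_cancel, hΦ.zero]
  let T : V k × ℝ → DiffM n N r := fun s =>
    { toFun := fun y => R s.1 (Φ s.2 y)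
      invFun := fun y => Φ (-s.2) (R (-s.1) y)
      left_inv := fun y => by
        show Φ (-s.2) (R (-s.1) (R s.1 (Φ s.2 y))) = y
        rw [hinv, hinvΦ]
      right_inv := fun y => by
        show R s.1 (Φ s.2 (Φ (-s.2) (R (-s.1) y))) = y
        have h1 := hinvΦ (-s.2) (R (-s.1) y)
        rw [neg_neg] at h1
        rw [h1]
        have := hinv (-s.1) y
        rwa [neg_neg] at this
      contMDiff_toFun := (hRs s.1).comp (hΦs s.2)
      contMDiff_invFun := (hΦs (-s.2)).comp (hRs (-s.1)) }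
  obtain ⟨H, hH⟩ : ∃ H : V k × ℝ → DiffM n N r, ∀ s y, H s y = F (R s.1 (Φ s.2 y)) :=
    ⟨fun s => (T s).trans F, fun s y => rfl⟩
  refine ⟨H, hH, ?_, ?_⟩
  · ext y
    rw [hH, Prod.fst_zero, Prod.snd_zero, hΦ.zero, hR.zero]
  · intro y
    have e1 : (fun p : (V k × ℝ) × N => H p.1 p.2) = fun p => F (R p.1.1 (Φ p.1.2 p.2)) := by
      funext p
      exact hH _ _
    rw [e1]
    have h1 : ContMDiff (𝓘(ℝ, V k × ℝ).prod (𝓡 n)) (𝓡 k) ∞ (fun p : (V k × ℝ) × N => p.1.1) :=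
      (contDiff_fst.contMDiff).comp contMDiff_fst
    have h2 : ContMDiff (𝓘(ℝ, V k × ℝ).prod (𝓡 n)) 𝓘(ℝ, ℝ) ∞ (fun p : (V k × ℝ) × N => p.1.2) :=
      (contDiff_snd.contMDiff).comp contMDiff_fst
    have h3 : ContMDiff (𝓘(ℝ, V k × ℝ).prod (𝓡 n)) (𝓡 n) ∞ (fun p : (V k × ℝ) × N => p.2) :=
      contMDiff_snd
    have h4 : ContMDiff (𝓘(ℝ, V k × ℝ).prod (𝓡 n)) (𝓡 n) ∞
        (fun p : (V k × ℝ) × N => Φ p.1.2 p.2) := hΦ.smooth.comp (h2.prodMk h3)
    have h5 : ContMDiff (𝓘(ℝ, V k × ℝ).prod (𝓡 n)) (𝓡 n) ∞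
        (fun p : (V k × ℝ) × N => R p.1.1 (Φ p.1.2 p.2)) := hR.smooth.comp (h1.prodMk h4)
    exact (F.contMDiff.comp (h5.of_le hr')).contMDiffAt

theorem iter_fl (hR : ExpAction k n N R) (hΦ : SmFlow n N Φ) {F : N → N} {K : Set N}
    {B : Type v} {π : N → B} {ψ : ℝ → B → B}
    (hFK : ∀ y ∈ K, F y ∈ K) (hRK : ∀ X, ∀ y ∈ K, R X y ∈ K)
    (hF : ∀ a, ∀ y ∈ K, F (R a y) = R a (F y)) (hfl : FlowOn F R K π Φ ψ) (q : V k × ℝ)
    {H : N → N} (hH : ∀ y, H y = F (R q.1 (Φ q.2 y))) (i : ℕ) {y : N} (hy : y ∈ K) :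
    H^[i] y = R ((i : ℝ) • q.1) (Φ (i * q.2) (F^[i] y)) := by
  have hK : ∀ i, F^[i] y ∈ K := by
    intro i
    induction i with
    | zero => exact hy
    | succ i ih => rw [Function.iterate_succ_apply']; exact hFK _ ih
  induction i with
  | zero => simp [hR.zero, hΦ.zero]
  | succ i ih =>
    have h0 := hfl.map (i * q.2) _ (hK i)
    have h1 := hR.line 1 i q.1 (Φ q.2 (Φ (i * q.2) (F^[i] y)))
    rw [one_smul] at h1
    rw [Function.iterate_succ_apply', ih, hH, ← hfl.commR _ _ _ h0, ← h1, ← hΦ.add,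
      hF _ _ (hfl.map _ _ (hK i)), hfl.commF _ _ (hK i), ← Function.iterate_succ_apply' F]
    have e1 : ((i + 1 : ℕ) : ℝ) = 1 + i := by push_cast; ring
    rw [e1]
    congr 2
    ring

end act

/-- closing in compact group extensions, with the help of a commuting flow -/
theorem lift {k n : ℕ} {N : Type u} [TopologicalSpace N] [T2Space N] [CompactSpace N]
    [ChartedSpace (V n) N] [IsManifold (𝓡 n) ∞ N] {r : ℕ∞} (hr : 1 ≤ r)
    {R : V k → N → N} (hR : ExpAction k n N R) {Φ : ℝ → N → N} (hΦ : SmFlow n N Φ)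
    {F : DiffM n N r} {K : Set N} {B : Type v} [MetricSpace B]
    {g : B → B} {π : N → B} (hq : IsQuot F R K g π) {ψ : ℝ → B → B} (hfl : FlowOn F R K π Φ ψ)
    {z : N} (hz : z ∈ K)
    (hg : AlmostCloseFl g ψ (π z) ∨ NearPerFl g ψ (π z)) : Closable n N r F z := by
  have h := t_CL.{u}
  have h2 := Pool.Agent.W699.SC.gc.{u}
  have hRc : ∀ a, Continuous (R a) := fun a =>
    hR.smooth.continuous.comp (continuous_const.prodMk continuous_id)
  obtain ⟨χ, hχ⟩ := h2 n N z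
  obtain ⟨H, hH, hH0, hfam⟩ := fl_fam hR hΦ r F
  have hit : ∀ (q : V k × ℝ) (i : ℕ), ∀ y ∈ K,
      (H q)^[i] y = R ((i : ℝ) • q.1) (Φ (i * q.2) (F^[i] y)) :=
    fun q i y hy => iter_fl hR hΦ hq.mapF hq.mapR hq.comm hfl q (hH q) i hy
  have hitK : ∀ (q : V k × ℝ) (i : ℕ), ∀ y ∈ K, (H q)^[i] y ∈ K := fun q i y hy => by
    rw [hit _ _ _ hy]
    exact hq.mapR _ _ (hfl.map _ _ (iter_mem hq i hy))
  have hitπ : ∀ (q : V k × ℝ) (i : ℕ), ∀ y ∈ K,
      π ((H q)^[i] y) = ψ (i * q.2) (g^[i] (π y)) := fun q i y hy => by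
    rw [hit _ _ _ hy, hq.inv _ _ (hfl.map _ _ (iter_mem hq i hy)),
      hfl.equi _ _ (iter_mem hq i hy), iter_equi hq i hy]
  have hnear : ∀ κ : ℝ, 0 < κ → ∃ η : ℝ, 0 < η ∧ ∀ b', dist b' (π z) < η →
      ∃ z' ∈ K, (z' ∈ χ.source ∧ ‖χ z'‖ < κ) ∧ π z' = b' := by
    intro κ hκ
    have h5 : ∀ᶠ y in 𝓝 z, y ∈ χ.source := χ.open_source.mem_nhds hχ.src
    have h6 : ∀ᶠ y in 𝓝 z, ‖χ y‖ < κ := by
      apply (χ.continuousAt hχ.src).norm.eventually_lt continuousAt_const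
      rw [hχ.zero, norm_zero]
      exact hκ
    exact locate hq hRc hz (h5.and h6)
  rcases hg with hg | hg
  · intro U hU hFU
    obtain ⟨kU, hkU, κ, hκ, hcl⟩ := h n N r hr (V k × ℝ) H hfam χ z hχ U hU (hH0 ▸ hFU)
    obtain ⟨η, hη, hloc⟩ := hnear (min κ (1 / 2)) (lt_min hκ (by norm_num))
    obtain ⟨c, hc, hac⟩ := hg κ hκ η hη
    obtain ⟨ρ1, hρ1, hsep⟩ := sep hq hχ hc
    set ρ := min (ρ1 / 2) (κ / 2) with hρ
    have hρ' : 0 < ρ := lt_min (half_pos hρ1) (half_pos hκ)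
    have hρκ : ρ < κ := (min_le_right _ _).trans_lt (half_lt_self hκ)
    have hε : 0 < κ * ρ ^ kU := by positivity
    obtain ⟨W, hWo, hWd, hW⟩ := chart_nhds hχ hε
    obtain ⟨cR, δ, hδ, hdiag⟩ := near_diag hq hRc hWo hWd
    obtain ⟨M, hM, hroot⟩ := small_root (k := k) hκ cR
    obtain ⟨m, b', s, hMm, hs, hb', hclose, hiso⟩ := hac δ hδ M
    obtain ⟨z', hz'K, ⟨hz's, hz'n⟩, hz'π⟩ := hloc b' hb'
    have hFm : Φ (m * s) (F^[m] z') ∈ K := hfl.map _ _ (iter_mem hq m hz'K)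
    obtain ⟨β, hβc, hβ⟩ := hdiag (Φ (m * s) (F^[m] z')) hFm z' hz'K (by
      rw [hfl.equi _ _ (iter_mem hq m hz'K), iter_equi hq m hz'K, hz'π]
      exact hclose)
    obtain ⟨α, hα, hαR⟩ := hroot m hMm β hβc
    obtain ⟨hs1, hs2⟩ := hW _ _ hβ hz's (hz'n.trans_le (min_le_right _ _))
    have hend : (H (α, s))^[m] z' = R β (Φ (m * s) (F^[m] z')) := by
      rw [hit _ _ _ hz'K]
      show R ((m : ℝ) • α) (Φ (m * s) (F^[m] z')) = _
      rw [hαR]
    refine hcl (α, s) z' ρ m ?_ hz's (hz'n.trans_le (min_le_left _ _)) hρ' hρκ (hM.trans hMm)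
      ?_ ?_ ?_
    · rw [Prod.norm_def]
      exact max_lt hα hs
    · rw [hend]
      exact hs1
    · rw [hend]
      exact hs2
    · intro i hi0 him hsrc
      have h5 := hsep z' hz'K _ (hitK (α, s) i z' hz'K) (by
        rw [hitπ (α, s) i z' hz'K, hz'π]; exact hiso i hi0 him) hz's
        (hz'n.trans_le (min_le_right _ _)) hsrc
      have h6 : ρ ≤ ρ1 / 2 := min_le_left _ _
      linarith
  · rw [← hH0]
    apply close_of_per h hr hfam hχ
    intro κ hκ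
    obtain ⟨η, hη, hloc⟩ := hnear κ hκ
    obtain ⟨b', m, s, hm, hs, hb', hper⟩ := hg κ hκ η hη
    obtain ⟨z', hz'K, ⟨hz's, hz'n⟩, hz'π⟩ := hloc b' hb'
    obtain ⟨cR, hcR⟩ := hq.fib
    obtain ⟨M, hM, hroot⟩ := small_root (k := k) hκ cR
    have hu : ∀ j : ℕ, ((H (0, s))^[m])^[j] z' ∈ K ∧ π (((H (0, s))^[m])^[j] z') = b' := by
      intro j
      induction j with
      | zero => exact ⟨hz'K, hz'π⟩
      | succ j ih =>
        rw [Function.iterate_succ_apply']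
        exact ⟨hitK _ _ _ ih.1, by rw [hitπ _ _ _ ih.1, ih.2]; exact hper⟩
    have hu' := hu M
    rw [← Function.iterate_mul] at hu'
    obtain ⟨β, hβc, hβ⟩ := hcR _ hu'.1 z' hz'K (hu'.2.trans hz'π.symm)
    obtain ⟨α, hα, hαR⟩ := hroot (m * M) (Nat.le_mul_of_pos_left M hm) β hβc
    refine ⟨(α, s), z', m * M, ?_, hz's, hz'n, Nat.mul_pos hm hM, ?_⟩
    · rw [Prod.norm_def]
      exact max_lt hα hs
    · rw [hit _ _ _ hz'K]
      show R (((m * M : ℕ) : ℝ) • α) _ = z'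
      rw [hαR]
      rw [hit _ _ _ hz'K] at hβ
      simpa [hR.zero] using hβ

/-- The closing lemma for compact connected group extensions of skew products with hyperbolic flows in
the fibres over arbitrary homeomorphisms. -/
theorem closable {k n : ℕ} {N : Type u} [TopologicalSpace N] [T2Space N] [CompactSpace N]
    [ChartedSpace (V n) N] [IsManifold (𝓡 n) ∞ N] {r : ℕ∞} (hr : 1 ≤ r)
    {R : V k → N → N} (hR : ExpAction k n N R) {Φ : ℝ → N → N} (hΦ : SmFlow n N Φ)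
    {F : DiffM n N r} {K : Set N} {X Y : Type v} [MetricSpace X] [CompactSpace X]
    [MetricSpace Y] [CompactSpace Y] {φ : ℝ → Y → Y} (h : HypFlow φ) (f : X ≃ₜ X) {τ : X → ℝ}
    (hτ : Continuous τ) (h0 : ∀ x, 0 ≤ τ x) {g : X × Y → X × Y}
    (hg : ∀ x y, g (x, y) = (f x, φ (τ x) y)) {π : N → X × Y} (hq : IsQuot F R K g π)
    {ψ : ℝ → X × Y → X × Y} (hψ : ∀ t x y, ψ t (x, y) = (x, φ t y))
    (hfl : FlowOn F R K π Φ ψ) {z : N} (hz : z ∈ K) (hx : NonWand f (π z).1) :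
    Closable n N r F z :=
  lift hr hR hΦ hq hfl hz (dichotomy h f hτ h0 hg hψ (π z).2 hx)

end Pool.Agent.N813.FL
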