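import Pool.Agent.N813.FL.DefsF
import Pool.Agent.N813.FL.Lift
import Pool.Agent.N813.FL.Disc

/-!
# The closing lemma for skew products with hyperbolic flows in the fibres
-/

set_option autoImplicit false

open scoped Manifold ContDiff Topology
open Filter Set Metric

universe u v

namespace Pool.Agent.N813.FL.F

open Pool.Agent.H718R2.G Pool.Agent.W564.SC Pool.Agent.N813.CL.F

theorem closing {k n : ℕ} {N : Type u} [TopologicalSpace N] [T2Space N]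
    [CompactSpace N] [ChartedSpace (V n) N] [IsManifold (𝓡 n) ∞ N] {r : ℕ∞} (hr : 1 ≤ r)
    {F : DiffM n N r} {z : N} (h : FlowHyp.{u, v} k n N F z) : Closable n N r F z := by
  obtain ⟨R, Φ, K, X, Y, _, _, _, _, f, τ, φ, π, ⟨hR1, hR2, hR3⟩, ⟨hΦ1, hΦ2, hΦ3⟩, ⟨hK1, hK2⟩,
    ⟨hq1, hq2, hq3, c, hq4⟩, ⟨hτ, h0, hF⟩, hcov, hφ, hz, hx⟩ := h
  exact Pool.Agent.N813.FL.closable (k := k) hr ⟨hR1, hR2, hR3⟩ (Φ := Φ) ⟨hΦ1, hΦ2, hΦ3⟩ hφ f hτ h0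
    (g := fun q => (f q.1, φ (τ q.1) q.2)) (fun _ _ => rfl) (K := K) (π := π)
    ⟨hK1, fun y hy => (hK2 y hy).1, fun X y hy => ((hK2 y hy).2 X).1,
      fun X y hy => ((hK2 y hy).2 X).2, hq1, hq2, hq3, ⟨c, hq4⟩, hF⟩
    (ψ := fun t q => (q.1, φ t q.2)) (fun _ _ _ => rfl)
    ⟨fun s y hy => (hcov s y hy).1, fun s y hy => (hcov s y hy).2.1,
      fun s X y hy => (hcov s y hy).2.2.1 X, fun s y hy => (hcov s y hy).2.2.2⟩ hz hx

theorem closingn {k n : ℕ} {N : Type u} [TopologicalSpace N] [T2Space N]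
    [CompactSpace N] [ChartedSpace (V n) N] [IsManifold (𝓡 n) ∞ N] {r : ℕ∞} (hr : 1 ≤ r)
    {F : DiffM n N r} {z : N} (h : MapHyp.{u, v} k n N F z) : Closable n N r F z := by
  obtain ⟨R, K, X, Y, _, _, _, _, f, τ, h, π, ⟨hR1, hR2, hR3⟩, ⟨hK1, hK2⟩,
    ⟨hq1, hq2, hq3, c, hq4⟩, ⟨h0, hF⟩, ⟨hs, hm, _⟩, hz, hx⟩ := h
  exact Pool.Agent.N813.FL.closablen (k := k) hr ⟨hR1, hR2, hR3⟩ h hs hm f h0
    (g := fun q => (f q.1, h^[τ q.1] q.2)) (fun _ _ => rfl) (K := K) (π := π)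
    ⟨hK1, fun y hy => (hK2 y hy).1, fun X y hy => ((hK2 y hy).2 X).1,
      fun X y hy => ((hK2 y hy).2 X).2, hq1, hq2, hq3, ⟨c, hq4⟩, hF⟩ hz hx

theorem main {n : ℕ} {N : Type u} [TopologicalSpace N] [T2Space N]
    [CompactSpace N] [ChartedSpace (V n) N] [IsManifold (𝓡 n) ∞ N] (r : ℕ∞) (hr : 1 ≤ r)
    (F : DiffM n N r) (z : N) (h : Approx n N r F fun F' => HypFib.{u, v} n N F' z) :
    Approx n N r F fun G => IsPer G z := by
  intro U hU hFU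
  obtain ⟨F', hF', k, h' | h'⟩ := h U hU hFU
  · exact closing hr h' U hU hF'
  · exact closingn hr h' U hU hF'

end Pool.Agent.N813.FL.F
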