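import Pool.Agent.N813.FL.Defs

/-!
# Flows with periodic shadowing: long closed orbits which return only at the end
-/

set_option autoImplicit false

open Filter Set Metric

universe v

namespace Pool.Agent.N813.FL

section
variable {Y : Type v} [MetricSpace Y] {φ : ℝ → Y → Y}

theorem IsFlow.cont_t (hφ : IsFlow φ) (t : ℝ) : Continuous (φ t) :=
  hφ.1.comp (continuous_const.prodMk continuous_id)

theorem IsFlow.cont_y (hφ : IsFlow φ) (y : Y) : Continuous fun t => φ t y :=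
  hφ.1.comp (continuous_id.prodMk continuous_const)

theorem IsFlow.comm (hφ : IsFlow φ) (s t : ℝ) (y : Y) : φ s (φ t y) = φ t (φ s y) := by
  rw [← hφ.2.2, ← hφ.2.2, add_comm]

theorem IsFlow.mul_nat (hφ : IsFlow φ) {a : ℝ} {q : Y} (h : φ a q = q) (k : ℕ) :
    φ (k * a) q = q := by
  induction k with
  | zero => simp [hφ.2.1]
  | succ k ih =>
    have h1 : ((k + 1 : ℕ) : ℝ) * a = a + k * a := by push_cast; ring
    rw [h1, hφ.2.2, ih, h]

/-- concatenation of chains -/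
theorem concat {δ : ℝ} {n₁ n₂ : ℕ} {t₁ t₂ : ℕ → ℝ} {w₁ w₂ : ℕ → Y} (h₁ : IsChain φ δ n₁ t₁ w₁)
    (h₂ : IsChain φ δ n₂ t₂ w₂) (h : w₁ n₁ = w₂ 0) :
    ∃ (t : ℕ → ℝ) (w : ℕ → Y), IsChain φ δ (n₁ + n₂) t w ∧ w 0 = w₁ 0 ∧
      (∀ i < n₁, t i = t₁ i) ∧ (∀ i < n₁, w i = w₁ i) ∧ (∀ j, w (n₁ + j) = w₂ j) ∧
      ∀ j, t (n₁ + j) = t₂ j := by
  refine ⟨fun i => if i < n₁ then t₁ i else t₂ (i - n₁),
    fun i => if i < n₁ then w₁ i else w₂ (i - n₁), ?_, ?_, ?_, ?_, ?_, ?_⟩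
  · intro i hi
    by_cases h1 : i < n₁
    · obtain ⟨h2, h3, h4⟩ := h₁ i h1
      simp only [if_pos h1]
      refine ⟨h2, h3, ?_⟩
      by_cases h5 : i + 1 < n₁
      · rw [if_pos h5]
        exact h4
      · have h6 : i + 1 = n₁ := by omega
        rw [if_neg h5, h6, Nat.sub_self, ← h, ← h6]
        exact h4
    · obtain ⟨h2, h3, h4⟩ := h₂ (i - n₁) (by omega)
      simp only [if_neg h1, if_neg (by omega : ¬ i + 1 < n₁)]
      refine ⟨h2, h3, ?_⟩
      have h6 : i + 1 - n₁ = i - n₁ + 1 := by omega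
      rw [h6]
      exact h4
  · by_cases h1 : 0 < n₁
    · simp only [if_pos h1]
    · simp only [if_neg h1]
      have h2 : n₁ = 0 := by omega
      rw [Nat.zero_sub, ← h, h2]
  · intro i hi
    simp only [if_pos hi]
  · intro i hi
    simp only [if_pos hi]
  · intro j
    simp only [if_neg (by omega : ¬ n₁ + j < n₁), Nat.add_sub_cancel_left]
  · intro j
    simp only [if_neg (by omega : ¬ n₁ + j < n₁), Nat.add_sub_cancel_left]

/-- periodic points are dense -/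
theorem dense_per (hφ : IsFlow φ) (hs : PerShadowFl φ) (hc : ChainTransFl φ) (y : Y) (ε : ℝ)
    (hε : 0 < ε) : ∃ (q : Y) (a : ℝ), 0 < a ∧ φ a q = q ∧ dist q y < ε := by
  obtain ⟨δ, hδ, H⟩ := hs (min ε (1 / 2)) (lt_min hε (by norm_num))
  obtain ⟨n, t, w, hn, hw0, hwn, hch⟩ := hc δ hδ y y
  obtain ⟨p, s, hst, hp, hd⟩ := H n t w hn (hwn.trans hw0.symm) hch
  refine ⟨p, ∑ i ∈ Finset.range n, s i, ?_, hp, ?_⟩
  · apply Finset.sum_pos
    · intro i hi
      rw [Finset.mem_range] at hi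
      have h1 := (hst i hi).trans_le (min_le_right _ _)
      have h2 := (hch i hi).1
      rw [abs_lt] at h1
      linarith
    · exact ⟨0, Finset.mem_range.2 (by omega)⟩
  · have h1 := hd 0 (by omega)
    rw [Finset.sum_range_zero, hφ.2.1, hw0] at h1
    exact h1.trans_le (min_le_left _ _)

/-- the orbit of a periodic point is compact -/
theorem compact_orbit (hφ : IsFlow φ) {q : Y} {a : ℝ} (ha : 0 < a) (hq : φ a q = q) :
    IsCompact (range fun t : ℝ => φ t q) := by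
  have h1 : (range fun t : ℝ => φ t q) = (fun t : ℝ => φ t q) '' Icc 0 a := by
    apply Subset.antisymm
    · rintro _ ⟨t, rfl⟩
      have hper : Function.Periodic (fun t : ℝ => φ t q) a := by
        intro t
        show φ (t + a) q = φ t q
        rw [hφ.2.2, hq]
      obtain ⟨t', ht', h2⟩ := hper.exists_mem_Ico₀ ha t
      exact ⟨t', ⟨ht'.1, ht'.2.le⟩, h2.symm⟩
    · rintro _ ⟨t, -, rfl⟩
      exact ⟨t, rfl⟩
  rw [h1]
  exact isCompact_Icc.image (hφ.cont_y q)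

/-- there is a periodic orbit which does not contain `y` -/
theorem exists_other (h : HypFlow φ) (y : Y) :
    ∃ (q : Y) (a : ℝ), 1 ≤ a ∧ φ a q = q ∧ ∀ t, φ t q ≠ y := by
  obtain ⟨hφ, hs, hc, hn⟩ := h
  have key : ∃ (q : Y) (a : ℝ), 0 < a ∧ φ a q = q ∧ ∀ t, φ t q ≠ y := by
    by_contra hcon
    push Not at hcon
    obtain ⟨q0, a, ha, hq0, -⟩ := dense_per hφ hs hc y 1 one_pos
    obtain ⟨t0, ht0⟩ := hcon q0 a ha hq0
    have hy : φ a y = y := by rw [← ht0, hφ.comm, hq0]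
    have hcl := (compact_orbit hφ ha hy).isClosed
    have hall : ∀ y', y' ∈ range fun t : ℝ => φ t y := by
      intro y'
      rw [← hcl.closure_eq, Metric.mem_closure_iff]
      intro ε hε
      obtain ⟨q, b, hb, hq, hd⟩ := dense_per hφ hs hc y' ε hε
      obtain ⟨t, ht⟩ := hcon q b hb hq
      refine ⟨q, ⟨-t, ?_⟩, by rw [dist_comm]; exact hd⟩
      show φ (-t) y = q
      rw [← ht, ← hφ.2.2, neg_add_cancel, hφ.2.1]
    obtain ⟨y', hy'⟩ := hn y
    obtain ⟨t, ht⟩ := hall y'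
    exact hy' t ht
  obtain ⟨q, a, ha, hq, hqy⟩ := key
  obtain ⟨N, hN⟩ := exists_nat_gt (1 / a)
  refine ⟨q, N * a, ?_, hφ.mul_nat hq N, hqy⟩
  rw [div_lt_iff₀ ha] at hN
  exact hN.le

/-- Long closed orbits through points near `y`, which come back only at the end. -/
theorem flex [CompactSpace Y] (h : HypFlow φ) (y : Y) (η ζ : ℝ) (hη : 0 < η) (hζ : 0 < ζ) :
    ∃ (ρ R T₀ : ℝ), 0 < ρ ∧ 0 < R ∧ ∀ T : ℝ, T₀ ≤ T → ∃ (y' : Y) (T' : ℝ), dist y' y < η ∧
      |T' - T| ≤ ζ * T ∧ φ T' y' = y' ∧ ∀ t, R ≤ t → t ≤ T' - R → ρ ≤ dist (φ t y') y' := by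
  obtain ⟨q, a, ha, hq, hqy⟩ := exists_other h y
  obtain ⟨hφ, hs, hc, -⟩ := h
  have ha0 : 0 < a := by linarith
  -- the distance from `y` to the orbit of `q`
  obtain ⟨d, hd, hdq⟩ : ∃ d : ℝ, 0 < d ∧ ∀ t, d ≤ dist (φ t q) y := by
    have hne : (range fun t : ℝ => φ t q).Nonempty := ⟨_, 0, rfl⟩
    obtain ⟨x, ⟨t0, rfl⟩, hmin⟩ := (compact_orbit hφ ha0 hq).exists_isMinOn hne
      (f := fun x => dist x y) (continuous_id.dist continuous_const).continuousOn
    exact ⟨_, dist_pos.2 (hqy t0), fun t => hmin ⟨t, rfl⟩⟩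
  set ρ : ℝ := d / 4 with hρ
  have hρ0 : 0 < ρ := by positivity
  -- uniform continuity
  obtain ⟨η₁, hη₁, huc⟩ : ∃ η₁ : ℝ, 0 < η₁ ∧ ∀ u : ℝ, 0 ≤ u → u ≤ 3 → ∀ p p' : Y,
      dist p p' < η₁ → dist (φ u p) (φ u p') < ρ := by
    have h1 : IsCompact (Icc (0 : ℝ) 3 ×ˢ (univ : Set Y)) := isCompact_Icc.prod isCompact_univ
    have h2 := h1.uniformContinuousOn_of_continuous hφ.1.continuousOn
    rw [Metric.uniformContinuousOn_iff] at h2
    obtain ⟨η₁, hη₁, h3⟩ := h2 ρ hρ0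
    refine ⟨η₁, hη₁, fun u hu0 hu3 p p' hpp => ?_⟩
    refine h3 (u, p) ⟨⟨hu0, hu3⟩, mem_univ _⟩ (u, p') ⟨⟨hu0, hu3⟩, mem_univ _⟩ ?_
    rw [Prod.dist_eq]
    simp only [dist_self]
    exact max_lt hη₁ hpp
  set η' : ℝ := min (min η η₁) (min (min ρ (1 / 2)) (ζ / 2)) with hη'
  have hη'0 : 0 < η' := lt_min (lt_min hη hη₁) (lt_min (lt_min hρ0 (by norm_num)) (by positivity))
  have e1 : η' ≤ η := (min_le_left _ _).trans (min_le_left _ _)
  have e2 : η' ≤ η₁ := (min_le_left _ _).trans (min_le_right _ _)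
  have e3 : η' ≤ ρ := (min_le_right _ _).trans ((min_le_left _ _).trans (min_le_left _ _))
  have e4 : η' ≤ 1 / 2 := (min_le_right _ _).trans ((min_le_left _ _).trans (min_le_right _ _))
  have e5 : η' ≤ ζ / 2 := (min_le_right _ _).trans (min_le_right _ _)
  obtain ⟨δ, hδ, hsh⟩ := hs η' hη'0
  obtain ⟨n₁, t₁, w₁, hn₁, hw₁0, hw₁n, hch₁⟩ := hc δ hδ y q
  obtain ⟨n₂, t₂, w₂, hn₂, hw₂0, hw₂n, hch₂⟩ := hc δ hδ q y
  -- the loop
  set b : ℕ := ⌊a⌋₊ with hb
  have hb1 : 1 ≤ b := Nat.le_floor (by exact_mod_cast ha)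
  have hb1' : (1 : ℝ) ≤ b := by exact_mod_cast hb1
  have hba : (b : ℝ) ≤ a := Nat.floor_le ha0.le
  have hab : a < b + 1 := Nat.lt_floor_add_one a
  set u : ℝ := a / b with hu
  have hub : b * u = a := by
    rw [hu]
    field_simp
  have hu1 : 1 ≤ u := by
    rw [hu, le_div_iff₀ (by positivity)]
    linarith
  have hu2 : u ≤ 2 := by
    rw [hu, div_le_iff₀ (by positivity)]
    linarith
  set A : ℝ := a + 3 * (n₁ + n₂) with hA
  have hA0 : 0 ≤ A := by positivity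
  refine ⟨ρ, 3 * (n₁ + n₂) + 1, 2 * A / ζ, hρ0, by positivity, fun T hT => ?_⟩
  have hTA : A ≤ ζ / 2 * T := by
    rw [div_le_iff₀ hζ] at hT
    linarith
  have hT0 : 0 ≤ T := by
    have h1 : 0 ≤ 2 * A / ζ := by positivity
    linarith
  set k : ℕ := ⌊T / a⌋₊ with hk
  have hk1 : k * a ≤ T := by
    have h1 : (k : ℝ) ≤ T / a := Nat.floor_le (by positivity)
    rwa [le_div_iff₀ ha0] at h1
  have hk2 : T - a ≤ k * a := by
    have h1 : T / a < k + 1 := Nat.lt_floor_add_one _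
    rw [div_lt_iff₀ ha0] at h1
    linarith
  have hloop : IsChain φ δ (k * b) (fun _ => u) (fun i => φ (i * u) q) := by
    intro i _
    refine ⟨hu1, hu2, ?_⟩
    have h1 : ((i + 1 : ℕ) : ℝ) * u = u + i * u := by push_cast; ring
    simp only [h1]
    rw [hφ.2.2 u, dist_self]
    exact hδ
  have hloopend : φ ((k * b : ℕ) * u) q = q := by
    have h1 : ((k * b : ℕ) : ℝ) * u = k * a := by
      rw [← hub]
      push_cast
      ring
    rw [h1]
    exact hφ.mul_nat hq k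
  obtain ⟨t₃, w₃, hch₃, hw₃0, ht₃, hw₃l, hw₃, -⟩ := concat hloop hch₂ (by
    show φ ((k * b : ℕ) * u) q = w₂ 0
    rw [hloopend, hw₂0])
  obtain ⟨t, w, hch, hw0, -, -, hw, ht'⟩ := concat hch₁ hch₃ (by
    rw [hw₁n, hw₃0]
    simp [hφ.2.1])
  set n : ℕ := n₁ + (k * b + n₂) with hn
  have hwn : w n = w 0 := by rw [hn, hw, hw₃, hw₂n, hw0, hw₁0]
  obtain ⟨p, s, hst, hp, hdist⟩ := hsh n t w (by omega) hwn hch
  set σ : ℕ → ℝ := fun i => ∑ j ∈ Finset.range i, s j with hσ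
  have hσs : ∀ i, σ (i + 1) = σ i + s i := fun i => Finset.sum_range_succ _ _
  have hs0 : ∀ i < n, 0 ≤ s i ∧ s i ≤ 3 := by
    intro i hi
    have h1 := (hst i hi)
    rw [abs_lt] at h1
    have h2 := hch i hi
    constructor <;> linarith [h2.1, h2.2.1]
  have hmono : ∀ i j, i + j ≤ n → 0 ≤ σ (i + j) - σ i ∧ σ (i + j) - σ i ≤ 3 * j := by
    intro i j
    induction j with
    | zero => intro _; simp
    | succ j ih =>
      intro hij
      obtain ⟨h1, h2⟩ := ih (by omega)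
      obtain ⟨h3, h4⟩ := hs0 (i + j) (by omega)
      have h5 : σ (i + (j + 1)) = σ (i + j) + s (i + j) := hσs (i + j)
      rw [h5]
      push_cast
      constructor <;> linarith
  have hσ0 : σ 0 = 0 := Finset.sum_range_zero _
  have hseg1 := hmono 0 n₁ (by omega)
  rw [zero_add, hσ0, sub_zero] at hseg1
  have hseg2 : ∀ j, j ≤ k * b → |σ (n₁ + j) - σ n₁ - j * u| ≤ j * η' := by
    intro j
    induction j with
    | zero => intro _; simp
    | succ j ih =>
      intro hj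
      have h1 := ih (by omega)
      have h2 := hst (n₁ + j) (by omega)
      have h3 : t (n₁ + j) = u := by rw [ht', ht₃ j (by omega)]
      rw [h3] at h2
      have h5 : σ (n₁ + (j + 1)) = σ (n₁ + j) + s (n₁ + j) := hσs (n₁ + j)
      rw [abs_le] at h1 ⊢
      rw [abs_lt] at h2
      rw [h5]
      push_cast
      constructor <;> linarith [h1.1, h1.2, h2.1, h2.2]
  have hseg3 := hmono (n₁ + k * b) n₂ (by omega)
  have hseg2' := hseg2 (k * b) le_rfl
  have hkbu : ((k * b : ℕ) : ℝ) * u = k * a := by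
    rw [← hub]
    push_cast
    ring
  have hkb : ((k * b : ℕ) : ℝ) ≤ T := by
    refine le_trans ?_ hk1
    push_cast
    exact mul_le_mul_of_nonneg_left hba (Nat.cast_nonneg _)
  have hkbη : ((k * b : ℕ) : ℝ) * η' ≤ T * (ζ / 2) :=
    mul_le_mul hkb e5 hη'0.le hT0
  rw [hkbu, abs_le] at hseg2'
  have hn' : n₁ + k * b + n₂ = n := by omega
  rw [hn'] at hseg3
  have hpy : dist p y < η' := by
    have h1 := hdist 0 (by omega)
    rw [Finset.sum_range_zero, hφ.2.1, hw0, hw₁0] at h1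
    exact h1
  refine ⟨p, σ n, hpy.trans_le e1, ?_, hp, ?_⟩
  · rw [abs_le]
    constructor
    · linarith [hseg1.1, hseg1.2, hseg2'.1, hseg2'.2, hseg3.1, hseg3.2]
    · linarith [hseg1.1, hseg1.2, hseg2'.1, hseg2'.2, hseg3.1, hseg3.2]
  · intro t' ht1 ht2
    have hlow : σ n₁ ≤ t' := by
      have h1 : (0 : ℝ) ≤ n₂ := Nat.cast_nonneg _
      linarith [hseg1.2]
    have hhigh : t' < σ (n₁ + k * b) := by
      have h1 : (0 : ℝ) ≤ n₁ := Nat.cast_nonneg _
      linarith [hseg3.2]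
    classical
    set J : ℕ := Nat.findGreatest (fun j => σ (n₁ + j) ≤ t') (k * b) with hJ
    have hJ1 : σ (n₁ + J) ≤ t' :=
      Nat.findGreatest_spec (P := fun j => σ (n₁ + j) ≤ t') (Nat.zero_le _) hlow
    have hJle : J ≤ k * b := Nat.findGreatest_le _
    have hJ2 : J < k * b := by
      refine lt_of_le_of_ne hJle ?_
      intro h1
      rw [h1] at hJ1
      linarith
    have hJ3 : t' < σ (n₁ + (J + 1)) := by
      by_contra hcon
      push Not at hcon
      have h1 := Nat.le_findGreatest (P := fun j => σ (n₁ + j) ≤ t') (m := J + 1) (n := k * b)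
        (by omega) hcon
      omega
    have h5 : σ (n₁ + (J + 1)) = σ (n₁ + J) + s (n₁ + J) := hσs (n₁ + J)
    have h6 := hs0 (n₁ + J) (by omega)
    set v : ℝ := t' - σ (n₁ + J) with hv
    have hv0 : 0 ≤ v := by linarith
    have hv3 : v ≤ 3 := by linarith [h6.2]
    have hwJ : w (n₁ + J) = φ (J * u) q := by rw [hw, hw₃l J hJ2]
    have h7 := hdist (n₁ + J) (by omega)
    rw [hwJ] at h7
    have h8 := huc v hv0 hv3 _ _ (h7.trans_le e2)
    have h9 : φ v (φ (∑ j ∈ Finset.range (n₁ + J), s j) p) = φ t' p := by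
      rw [← hφ.2.2]
      congr 1
      show v + σ (n₁ + J) = t'
      linarith
    rw [h9, ← hφ.2.2] at h8
    have h10 := hdq (v + J * u)
    have h11 : dist (φ (v + J * u) q) y ≤ dist (φ (v + J * u) q) (φ t' p) +
        dist (φ t' p) p + dist p y := dist_triangle4 _ _ _ _
    rw [dist_comm (φ (v + J * u) q) (φ t' p)] at h11
    linarith

end

end Pool.Agent.N813.FL
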